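import Pool.Agent.H.MP_7efe7b_al.Levels

set_option autoImplicit false

namespace Pool.Agent.Results.MP_7efe7b_al.DepthLowerBound

open Pool.Agent.H.MP_7efe7b_al

/-- There is a constant `C` with `d(g) ≥ 0.529 * log₂ |g| + C` for all nontrivial elements `g`
of the first Grigorchuk group. -/
theorem result : ∃ C : ℝ, ∀ g ∈ Grigorchuk, g ≠ 1 →
    (529 / 1000 : ℝ) * Real.logb 2 (wordLength g : ℝ) + C ≤ (depth g : ℝ) := by
  obtain ⟨K, hK1, hK⟩ := PP_main
  refine ⟨-((529 / 1000 : ℝ) * Real.logb 2 (3 * K) + 7), fun g hg _ => ?_⟩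
  have hKpos : (0 : ℝ) < 3 * K := by
    have : (1 : ℝ) ≤ K := by exact_mod_cast hK1
    linarith
  set n := depth g with hn
  have hd : Dp n g := Dp_depth hg
  have hm : n ≤ 7 * (n / 7 + 1) := by omega
  have hm2 : 7 * (n / 7) ≤ n := by omega
  have hH := wordLength_le (hK _ g hg (Dp_mono hm hd))
  have hbound : (wordLength g : ℝ) ≤ (3 * K) * (9600 : ℝ) ^ (n / 7 + 1) := by
    have h1 : 1 ≤ K * 9600 ^ (n / 7 + 1) := Nat.one_le_iff_ne_zero.mpr (by positivity)
    have h2 : wordLength g ≤ 3 * (K * 9600 ^ (n / 7 + 1)) := by omega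
    have h3 : ((wordLength g : ℕ) : ℝ) ≤ ((3 * (K * 9600 ^ (n / 7 + 1)) : ℕ) : ℝ) := by
      exact_mod_cast h2
    refine h3.trans (le_of_eq ?_)
    push_cast; ring
  have h9600 : Real.logb 2 9600 ≤ 7000 / 529 := by
    have h : (529 : ℝ) * Real.logb 2 9600 ≤ 7000 := by
      have e1 : (529 : ℝ) * Real.logb 2 9600 = Real.logb 2 ((9600 : ℝ) ^ (529 : ℕ)) := by
        rw [Real.logb_pow]; norm_num
      have e2 : (7000 : ℝ) = Real.logb 2 ((2 : ℝ) ^ (7000 : ℕ)) := by
        rw [Real.logb_pow, Real.logb_self_eq_one (by norm_num)]; norm_num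
      rw [e1, e2]
      apply Real.logb_le_logb_of_le (by norm_num) (by positivity)
      have h0 : (9600 : ℕ) ^ 529 ≤ 2 ^ 7000 := by decide +kernel
      exact_mod_cast h0
    rw [le_div_iff₀ (by norm_num)]
    linarith
  have hlog9 : 0 ≤ Real.logb 2 9600 := Real.logb_nonneg (by norm_num) (by norm_num)
  have hlogb : Real.logb 2 (wordLength g : ℝ) ≤
      Real.logb 2 (3 * K) + ((n / 7 : ℕ) + 1 : ℝ) * Real.logb 2 9600 := by
    rcases Nat.eq_zero_or_pos (wordLength g) with h0 | h0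
    · rw [h0, Nat.cast_zero, Real.logb_zero]
      have : 0 ≤ Real.logb 2 (3 * K : ℝ) := by
        apply Real.logb_nonneg (by norm_num)
        have : (1 : ℝ) ≤ K := by exact_mod_cast hK1
        linarith
      positivity
    · have hw : (0 : ℝ) < wordLength g := by exact_mod_cast h0
      have := Real.logb_le_logb_of_le (b := 2) (by norm_num) hw hbound
      rw [Real.logb_mul hKpos.ne' (by positivity), Real.logb_pow] at this
      refine this.trans (le_of_eq ?_)
      push_cast; ring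
  have hm3 : ((n / 7 : ℕ) : ℝ) * 7 ≤ n := by
    have : ((7 * (n / 7) : ℕ) : ℝ) ≤ (n : ℝ) := by exact_mod_cast hm2
    push_cast at this; linarith
  have hq : (0 : ℝ) ≤ ((n / 7 : ℕ) : ℝ) := Nat.cast_nonneg _
  have h4 : ((n / 7 : ℕ) + 1 : ℝ) * Real.logb 2 9600 ≤
      ((n / 7 : ℕ) + 1 : ℝ) * (7000 / 529) :=
    mul_le_mul_of_nonneg_left h9600 (by positivity)
  linarith

end Pool.Agent.Results.MP_7efe7b_al.DepthLowerBound
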